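import Pool.Agent.H590.NL.Stm

set_option autoImplicit false

open MeasureTheory Filter Topology Set

namespace H990NL

open H590NL

variable {n : ℕ} {κ : Type} [Fintype κ]

theorem Ph_one (p : ℝ) (v : κ → V n) (x : V n) : Ph p v one x = ∑ k, tau p v k x := by
  unfold Ph one tau
  simp

theorem Ph_nonneg (p : ℝ) (v : κ → V n) (x : V n) : 0 ≤ Ph p v one x := by
  rw [Ph_one]
  exact Finset.sum_nonneg fun k _ => Real.rpow_nonneg (abs_nonneg _) _

theorem Ph_smul (p : ℝ) (v : κ → V n) (c : ℝ) (hc : 0 ≤ c) (x : V n) :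
    Ph p v one (c • x) = c ^ p * Ph p v one x := by
  rw [Ph_one, Ph_one, Finset.mul_sum]
  refine Finset.sum_congr rfl fun k _ => ?_
  unfold tau
  have : ip (v k) (c • x) = c * ip (v k) x := by
    unfold ip
    rw [Finset.mul_sum]
    refine Finset.sum_congr rfl fun i _ => ?_
    rw [Pi.smul_apply, smul_eq_mul]
    ring
  rw [this, abs_mul, abs_of_nonneg hc, Real.mul_rpow hc (abs_nonneg _)]

theorem Ph_cont (p : ℝ) (hp : 0 < p) (v : κ → V n) : Continuous (Ph p v one) := by
  unfold Ph ip
  refine continuous_finsetSum _ fun k _ => ?_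
  refine continuous_const.mul ?_
  refine Continuous.rpow_const ?_ (fun x => Or.inr hp.le)
  fun_prop

theorem pow_root (p s : ℝ) (hp : 0 < p) (hs : 0 < s) : (s ^ (1 / p)) ^ p = s := by
  rw [← Real.rpow_mul hs.le, one_div, inv_mul_cancel₀ hp.ne', Real.rpow_one]

theorem scale (p : ℝ) (hp : 0 < p) (v : κ → V n) (s : ℝ) (hs : 0 < s) :
    ∫ x : V n, Real.exp (-(s * Ph p v one x)) = s ^ (-((n : ℝ) / p)) * FF p v one := by
  have hc : 0 < s ^ (1 / p) := Real.rpow_pos_of_pos hs _
  have h1 : ∫ x : V n, Real.exp (-(s * Ph p v one x)) =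
      ∫ x : V n, (fun y => Real.exp (-(Ph p v one y))) ((s ^ (1 / p)) • x) := by
    refine integral_congr_ae (Eventually.of_forall fun x => ?_)
    simp only
    rw [Ph_smul p v _ hc.le, pow_root p s hp hs]
  have h0 := MeasureTheory.Measure.integral_comp_smul (volume : Measure (V n))
    (fun y => Real.exp (-(Ph p v one y))) (s ^ (1 / p))
  rw [h1, h0]
  have h2 : Module.finrank ℝ (V n) = n := by simp [V]
  rw [h2, smul_eq_mul]
  unfold FF
  congr 1
  rw [abs_of_nonneg (by positivity), ← Real.rpow_natCast, ← Real.rpow_mul hs.le,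
    ← Real.rpow_neg hs.le]
  congr 1
  ring

theorem EUL (h : S_IF) : S_EUL := by
  intro n κ _ p hp1 hp2 v hv
  obtain ⟨hI, hF, hk⟩ := h n κ p hp1 hp2 v hv
  have hp : 0 < p := by linarith
  set f : V n → ℝ := Ph p v one with hf
  have hfc : Continuous f := Ph_cont p hp v
  have hf0 : ∀ x, 0 ≤ f x := Ph_nonneg p v
  have hIf : Integrable (fun x => Real.exp (-(f x)) * f x) := by
    have h1 : (fun x => Real.exp (-(f x)) * f x) =
        fun x => ∑ k, Real.exp (-(f x)) * tau p v k x := by
      funext x
      rw [← Finset.mul_sum, ← Ph_one]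
    rw [h1]
    exact integrable_finsetSum _ fun k _ => (hk k).1
  have hsum : ∑ k, TT p v k = ∫ x, Real.exp (-(f x)) * f x := by
    unfold TT
    rw [← integral_finsetSum _ fun k _ => (hk k).1]
    refine integral_congr_ae (Eventually.of_forall fun x => ?_)
    simp only
    rw [← Finset.mul_sum, ← Ph_one]
  -- integrability of the dominating function
  set c : ℝ := (1 / 2 : ℝ) ^ (1 / p) with hc
  have hc0 : 0 < c := Real.rpow_pos_of_pos (by norm_num) _
  have hbd : Integrable (fun x => 2 * (Real.exp (-(1 / 2 * f x)) * (1 / 2 * f x))) := by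
    have h1 := (hIf.comp_smul hc0.ne').const_mul 2
    refine h1.congr (Eventually.of_forall fun x => ?_)
    simp only
    rw [hf, Ph_smul p v c hc0.le, hc, pow_root p _ hp (by norm_num)]
  have hder := hasDerivAt_integral_of_dominated_loc_of_deriv_le (μ := (volume : Measure (V n)))
    (F := fun s x => Real.exp (-(s * f x))) (F' := fun s x => -(Real.exp (-(s * f x)) * f x))
    (x₀ := (1 : ℝ)) (s := Ioi (1 / 2 : ℝ))
    (bound := fun x => 2 * (Real.exp (-(1 / 2 * f x)) * (1 / 2 * f x)))
    (Ioi_mem_nhds (by norm_num))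
    (Eventually.of_forall fun s => by
      exact (by fun_prop : Continuous fun x => Real.exp (-(s * f x))).aestronglyMeasurable)
    (by simpa using hI)
    ((by fun_prop : Continuous fun x => -(Real.exp (-(1 * f x)) * f x)).aestronglyMeasurable)
    (Eventually.of_forall fun x s hs => by
      rw [norm_neg, norm_mul, Real.norm_eq_abs, Real.norm_eq_abs, Real.abs_exp,
        abs_of_nonneg (hf0 x)]
      have hs' : (1 / 2 : ℝ) < s := hs
      have h1 : Real.exp (-(s * f x)) ≤ Real.exp (-(1 / 2 * f x)) := by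
        apply Real.exp_le_exp.mpr
        have := mul_le_mul_of_nonneg_right hs'.le (hf0 x)
        linarith
      have h2 := mul_le_mul_of_nonneg_right h1 (hf0 x)
      linarith)
    hbd
    (Eventually.of_forall fun x s _ => by
      have h1 : HasDerivAt (fun s : ℝ => -(s * f x)) (-(1 * f x)) s :=
        ((hasDerivAt_id s).mul_const (f x)).neg
      have h2 := h1.exp
      have h3 : Real.exp (-(s * f x)) * (-(1 * f x)) = -(Real.exp (-(s * f x)) * f x) := by ring
      rw [← h3]
      exact h2)
  have hd1 := hder.2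
  have hd2 : HasDerivAt (fun s : ℝ => ∫ x : V n, Real.exp (-(s * f x)))
      (-((n : ℝ) / p) * FF p v one) 1 := by
    have h1 : HasDerivAt (fun s : ℝ => s ^ (-((n : ℝ) / p)) * FF p v one)
        (-((n : ℝ) / p) * FF p v one) 1 := by
      have h2 := (Real.hasDerivAt_rpow_const (x := (1 : ℝ)) (p := -((n : ℝ) / p))
        (Or.inl one_ne_zero)).mul_const (FF p v one)
      simpa using h2
    refine h1.congr_of_eventuallyEq ?_
    filter_upwards [Ioi_mem_nhds (show (0 : ℝ) < 1 by norm_num)] with s hs
    exact scale p hp v s hs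
  have huniq := hd1.unique hd2
  simp only [one_mul] at huniq
  rw [integral_neg] at huniq
  rw [hsum]
  linarith

end H990NL
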